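import Mathlib

/-!
# The `k`-cover game and the finite-open game on topological sums

One wins the game `G₁(𝒩[K(X)], ¬𝒦_X)` on a sum `X ⊕ Y` (by a strategy, by a predetermined strategy) if
and only if he does so on both summands, and likewise for the finite-open game.  Hence, for a
compact space `C`, the sum `Y ⊕ C` has the properties (i), (ii), (iii) of the question if and only if
One wins the first game on `Y`, but not by a predetermined strategy, and does not win the finite-open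
game on both `Y` and `C`.  This gives examples of every uncountable cardinality `≥ 𝔠`, for which even Two
has a winning Markov strategy in the finite-open game.

The strategy of One on the one-point Lindelöfication and the use of Lebesgue measure are those of the
library module `R_pool_sql_team_39128cda/Results/MP_c6d0b8_gt/Main.lean`.
-/

set_option autoImplicit false

namespace Pool.Agent.Results.MP_c6d0b8_gt.SumTheorem

open Set Filter MeasureTheory

universe u v

/-- the moves `F 0, …, F (n - 1)`, the last one first -/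
def hist {α : Type u} (F : ℕ → α) : ℕ → List α
  | 0 => []
  | n + 1 => F n :: hist F n

/-- One picks sets satisfying `P`, Two answers by open supersets `U n`; One has a strategy such that
every set satisfying `T` is contained in some `U n`. -/
def Win (X : Type u) [TopologicalSpace X] (P T : Set X → Prop) : Prop :=
  ∃ σ : List (Set X) → Set X, (∀ h, P (σ h)) ∧
    ∀ U : ℕ → Set X, (∀ n, IsOpen (U n) ∧ σ (hist U n) ⊆ U n) → ∀ K, T K → ∃ n, K ⊆ U n

/-- the same for predetermined strategies of One -/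
def Pre (X : Type u) [TopologicalSpace X] (P T : Set X → Prop) : Prop :=
  ∃ A : ℕ → Set X, (∀ n, P (A n)) ∧
    ∀ U : ℕ → Set X, (∀ n, IsOpen (U n) ∧ A n ⊆ U n) → ∀ K, T K → ∃ n, K ⊆ U n

/-- nonempty compact sets -/
def NC (X : Type u) [TopologicalSpace X] (K : Set X) : Prop := IsCompact K ∧ K.Nonempty

/-- singletons -/
def Sing (X : Type u) (K : Set X) : Prop := ∃ x, K = {x}

/-- One has a winning strategy in `G₁(𝒩[K(X)], ¬𝒦_X)`. -/
def WinsK (X : Type u) [TopologicalSpace X] : Prop := Win X (NC X) IsCompact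

/-- One has a winning predetermined strategy in `G₁(𝒩[K(X)], ¬𝒦_X)`. -/
def PreK (X : Type u) [TopologicalSpace X] : Prop := Pre X (NC X) IsCompact

/-- One has a winning strategy in the finite-open game: the sets `U n` of Two cover all points. -/
def WinsF (X : Type u) [TopologicalSpace X] : Prop := Win X Set.Finite (Sing X)

/-- Two has a winning Markov strategy in the finite-open game. -/
def TwoMarkovF (X : Type u) [TopologicalSpace X] : Prop :=
  ∃ τ : Set X → ℕ → Set X, (∀ F, F.Finite → ∀ n, IsOpen (τ F n) ∧ F ⊆ τ F n) ∧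
    ∀ F : ℕ → Set X, (∀ n, (F n).Finite) → ⋃ n, τ (F n) n ≠ univ

section Basic

variable {X : Type u} [TopologicalSpace X] {P T : Set X → Prop}

theorem hist_sublist {α : Type u} (F : ℕ → α) {m n : ℕ} (h : m ≤ n) : (hist F m).Sublist (hist F n) := by
  induction n, h using Nat.le_induction with
  | base => exact List.Sublist.refl _
  | succ n _ ih => exact ih.trans (List.sublist_cons_self _ _)

theorem hist_comp {α : Type u} (F : ℕ → α) {φ : ℕ → ℕ} (hφ : StrictMono φ) (k : ℕ) :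
    (hist (fun i => F (φ i)) k).Sublist (hist F (φ k)) := by
  induction k with
  | zero => exact List.nil_sublist _
  | succ k ih => exact (ih.cons_cons (F (φ k))).trans (hist_sublist F (hφ (Nat.lt_succ_self k)))

theorem hist_map {α : Type u} {β : Type v} (g : α → β) (F : ℕ → α) (n : ℕ) :
    hist (fun i => g (F i)) n = (hist F n).map g := by
  induction n with
  | zero => rfl
  | succ n ih => simp [hist, ih]

/-- One can arrange that every set satisfying `T` is in almost all sets of Two. -/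
theorem Win.strong (hP : ∀ A B, P A → P B → P (A ∪ B)) (h : Win X P T) :
    ∃ σ : List (Set X) → Set X, (∀ h, P (σ h)) ∧
      ∀ U : ℕ → Set X, (∀ n, IsOpen (U n) ∧ σ (hist U n) ⊆ U n) →
        ∀ K, T K → ∀ᶠ n in atTop, K ⊆ U n := by
  obtain ⟨σ, h1, h2⟩ := h
  let τ : List (List (Set X)) → Set X := fun l => (l.map σ).foldr (· ∪ ·) (σ [])
  have hτ : ∀ l, P (τ l) := by
    intro l
    induction l with
    | nil => exact h1 []
    | cons g l ih => exact hP _ _ (h1 g) ih
  have hτ2 : ∀ l, ∀ g ∈ l, σ g ⊆ τ l := by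
    intro l
    induction l with
    | nil => intro g hg; cases hg
    | cons g' l ih =>
      intro g hg
      rcases List.mem_cons.1 hg with rfl | hg
      · exact subset_union_left
      · exact (ih g hg).trans subset_union_right
  refine ⟨fun h => τ h.sublists, fun h => hτ _, fun U hU K hK => ?_⟩
  by_contra hc
  obtain ⟨φ, hφ, h3⟩ := extraction_of_frequently_atTop (not_eventually.1 hc)
  obtain ⟨n, hn⟩ := h2 (fun i => U (φ i)) (fun k => ⟨(hU _).1,
    (hτ2 _ _ (List.mem_sublists.2 (hist_comp U hφ k))).trans (hU (φ k)).2⟩) K hK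
  exact h3 n hn

theorem Pre.strong (hP : ∀ A B, P A → P B → P (A ∪ B)) (h : Pre X P T) :
    ∃ A : ℕ → Set X, (∀ n, P (A n)) ∧
      ∀ U : ℕ → Set X, (∀ n, IsOpen (U n) ∧ A n ⊆ U n) → ∀ K, T K → ∀ᶠ n in atTop, K ⊆ U n := by
  obtain ⟨A, h1, h2⟩ := h
  let B : ℕ → Set X := fun n => Nat.rec (A 0) (fun n b => A (n + 1) ∪ b) n
  have hB : ∀ n, P (B n) := by
    intro n
    induction n with
    | zero => exact h1 0
    | succ n ih => exact hP _ _ (h1 _) ih
  have hB2 : ∀ n, ∀ k ≤ n, A k ⊆ B n := by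
    intro n
    induction n with
    | zero => intro k hk; obtain rfl : k = 0 := by omega
              exact subset_rfl
    | succ n ih =>
      intro k hk
      rcases Nat.lt_or_ge n k with h | h
      · obtain rfl : k = n + 1 := by omega
        exact subset_union_left
      · exact (ih k h).trans subset_union_right
  refine ⟨B, hB, fun U hU K hK => ?_⟩
  by_contra hc
  obtain ⟨φ, hφ, h3⟩ := extraction_of_frequently_atTop (not_eventually.1 hc)
  obtain ⟨n, hn⟩ := h2 (fun i => U (φ i)) (fun k => ⟨(hU _).1,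
    (hB2 _ _ (hφ.id_le k)).trans (hU (φ k)).2⟩) K hK
  exact h3 n hn

theorem TwoMarkovF.not_winsF (h : TwoMarkovF X) : ¬ WinsF X := by
  obtain ⟨τ, h1, h2⟩ := h
  rintro ⟨σ, h3, h4⟩
  let l : ℕ → List (Set X) := Nat.rec [] fun n h => τ (σ h) n :: h
  have h8 (n : ℕ) : hist (fun n => τ (σ (l n)) n) n = l n := by
    induction n with
    | zero => rfl
    | succ n ih => exact congrArg _ ih
  refine h2 (fun n => σ (l n)) (fun n => h3 _) (eq_univ_of_forall fun x => ?_)
  obtain ⟨n, hn⟩ := h4 (fun n => τ (σ (l n)) n) (fun n => ⟨(h1 _ (h3 _) n).1, by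
    rw [h8]
    exact (h1 _ (h3 _) n).2⟩) {x} ⟨x, rfl⟩
  exact mem_iUnion.2 ⟨n, hn rfl⟩

end Basic

section Sums

variable {X : Type u} {Y : Type v} [TopologicalSpace X] [TopologicalSpace Y]

/-- restricting strategies to clopen subspaces -/
theorem Win.restrict {Z : Type v} [TopologicalSpace Z] {P T : Set X → Prop} {P' T' : Set Z → Prop}
    {f : X → Z} (hf : Topology.IsOpenEmbedding f) (hc : IsClosed (range f)) (x0 : X)
    (hP : ∀ K, P' K → P (insert x0 (f ⁻¹' K))) (hT : ∀ K, T K → T' (f '' K)) (h : Win Z P' T') :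
    Win X P T := by
  obtain ⟨σ, h1, h2⟩ := h
  let g : Set X → Set Z := fun U => f '' U ∪ (range f)ᶜ
  refine ⟨fun h => insert x0 (f ⁻¹' σ (h.map g)), fun h => hP _ (h1 _), fun U hU K hK => ?_⟩
  have h3 : ∀ n, IsOpen (g (U n)) ∧ σ (hist (fun n => g (U n)) n) ⊆ g (U n) := by
    refine fun n => ⟨(hf.isOpenMap _ (hU n).1).union hc.isOpen_compl, fun z hz => ?_⟩
    by_cases h : z ∈ range f
    · obtain ⟨x, rfl⟩ := h
      rw [hist_map] at hz
      exact Or.inl ⟨x, (hU n).2 (Or.inr hz), rfl⟩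
    · exact Or.inr h
  obtain ⟨n, hn⟩ := h2 (fun n => g (U n)) h3 (f '' K) (hT K hK)
  refine ⟨n, fun x hx => ?_⟩
  rcases hn ⟨x, hx, rfl⟩ with ⟨y, hy, h⟩ | h
  · rwa [← hf.injective h]
  · exact absurd ⟨x, rfl⟩ h

theorem Pre.restrict {Z : Type v} [TopologicalSpace Z] {P T : Set X → Prop} {P' T' : Set Z → Prop}
    {f : X → Z} (hf : Topology.IsOpenEmbedding f) (hc : IsClosed (range f)) (x0 : X)
    (hP : ∀ K, P' K → P (insert x0 (f ⁻¹' K))) (hT : ∀ K, T K → T' (f '' K)) (h : Pre Z P' T') :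
    Pre X P T := by
  obtain ⟨A, h1, h2⟩ := h
  refine ⟨fun n => insert x0 (f ⁻¹' A n), fun n => hP _ (h1 _), fun U hU K hK => ?_⟩
  have h3 : ∀ n, IsOpen (f '' U n ∪ (range f)ᶜ) ∧ A n ⊆ f '' U n ∪ (range f)ᶜ := by
    refine fun n => ⟨(hf.isOpenMap _ (hU n).1).union hc.isOpen_compl, fun z hz => ?_⟩
    by_cases h : z ∈ range f
    · obtain ⟨x, rfl⟩ := h
      exact Or.inl ⟨x, (hU n).2 (Or.inr hz), rfl⟩
    · exact Or.inr h
  obtain ⟨n, hn⟩ := h2 (fun n => f '' U n ∪ (range f)ᶜ) h3 (f '' K) (hT K hK)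
  refine ⟨n, fun x hx => ?_⟩
  rcases hn ⟨x, hx, rfl⟩ with ⟨y, hy, h⟩ | h
  · rwa [← hf.injective h]
  · exact absurd ⟨x, rfl⟩ h

variable {P T : Set X → Prop} {Q S : Set Y → Prop} {R V : Set (X ⊕ Y) → Prop}

theorem Win.sum (hP : ∀ A B, P A → P B → P (A ∪ B)) (hQ : ∀ A B, Q A → Q B → Q (A ∪ B))
    (hR : ∀ A B, P A → Q B → R (Sum.inl '' A ∪ Sum.inr '' B))
    (hV : ∀ K, V K → (T (Sum.inl ⁻¹' K) ∨ Sum.inl ⁻¹' K = ∅) ∧ (S (Sum.inr ⁻¹' K) ∨ Sum.inr ⁻¹' K = ∅))
    (h : Win X P T) (h' : Win Y Q S) : Win (X ⊕ Y) R V := by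
  obtain ⟨σ, h1, h2⟩ := h.strong hP
  obtain ⟨τ, h3, h4⟩ := h'.strong hQ
  refine ⟨fun h => Sum.inl '' σ (h.map (Sum.inl ⁻¹' ·)) ∪ Sum.inr '' τ (h.map (Sum.inr ⁻¹' ·)),
    fun h => hR _ _ (h1 _) (h3 _), fun U hU K hK => ?_⟩
  have e1 : ∀ᶠ n in atTop, Sum.inl ⁻¹' K ⊆ Sum.inl ⁻¹' U n := by
    rcases (hV K hK).1 with h | h
    · refine h2 (fun n => Sum.inl ⁻¹' U n) (fun n => ⟨(hU n).1.preimage continuous_inl, ?_⟩) _ h
      rw [hist_map]
      exact image_subset_iff.1 (subset_union_left.trans (hU n).2)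
    · rw [h]
      exact Eventually.of_forall fun _ => empty_subset _
  have e2 : ∀ᶠ n in atTop, Sum.inr ⁻¹' K ⊆ Sum.inr ⁻¹' U n := by
    rcases (hV K hK).2 with h | h
    · refine h4 (fun n => Sum.inr ⁻¹' U n) (fun n => ⟨(hU n).1.preimage continuous_inr, ?_⟩) _ h
      rw [hist_map]
      exact image_subset_iff.1 (subset_union_right.trans (hU n).2)
    · rw [h]
      exact Eventually.of_forall fun _ => empty_subset _
  obtain ⟨n, h5, h6⟩ := (e1.and e2).exists
  exact ⟨n, fun | .inl x, h => h5 h | .inr x, h => h6 h⟩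

theorem Pre.sum (hP : ∀ A B, P A → P B → P (A ∪ B)) (hQ : ∀ A B, Q A → Q B → Q (A ∪ B))
    (hR : ∀ A B, P A → Q B → R (Sum.inl '' A ∪ Sum.inr '' B))
    (hV : ∀ K, V K → (T (Sum.inl ⁻¹' K) ∨ Sum.inl ⁻¹' K = ∅) ∧ (S (Sum.inr ⁻¹' K) ∨ Sum.inr ⁻¹' K = ∅))
    (h : Pre X P T) (h' : Pre Y Q S) : Pre (X ⊕ Y) R V := by
  obtain ⟨σ, h1, h2⟩ := h.strong hP
  obtain ⟨τ, h3, h4⟩ := h'.strong hQ
  refine ⟨fun n => Sum.inl '' σ n ∪ Sum.inr '' τ n, fun h => hR _ _ (h1 _) (h3 _), fun U hU K hK => ?_⟩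
  have e1 : ∀ᶠ n in atTop, Sum.inl ⁻¹' K ⊆ Sum.inl ⁻¹' U n := by
    rcases (hV K hK).1 with h | h
    · exact h2 (fun n => Sum.inl ⁻¹' U n) (fun n => ⟨(hU n).1.preimage continuous_inl,
        image_subset_iff.1 (subset_union_left.trans (hU n).2)⟩) _ h
    · rw [h]
      exact Eventually.of_forall fun _ => empty_subset _
  have e2 : ∀ᶠ n in atTop, Sum.inr ⁻¹' K ⊆ Sum.inr ⁻¹' U n := by
    rcases (hV K hK).2 with h | h
    · exact h4 (fun n => Sum.inr ⁻¹' U n) (fun n => ⟨(hU n).1.preimage continuous_inr,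
        image_subset_iff.1 (subset_union_right.trans (hU n).2)⟩) _ h
    · rw [h]
      exact Eventually.of_forall fun _ => empty_subset _
  obtain ⟨n, h5, h6⟩ := (e1.and e2).exists
  exact ⟨n, fun | .inl x, h => h5 h | .inr x, h => h6 h⟩

theorem nc_union {X : Type u} [TopologicalSpace X] (A B : Set X) (hA : NC X A) (hB : NC X B) :
    NC X (A ∪ B) := ⟨hA.1.union hB.1, hA.2.mono subset_union_left⟩

theorem nc_sum (A : Set X) (B : Set Y) (hA : NC X A) (hB : NC Y B) :
    NC (X ⊕ Y) (Sum.inl '' A ∪ Sum.inr '' B) :=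
  ⟨(hA.1.image continuous_inl).union (hB.1.image continuous_inr),
    (hA.2.image _).mono subset_union_left⟩

theorem compact_sum (K : Set (X ⊕ Y)) (hK : IsCompact K) :
    (IsCompact (Sum.inl ⁻¹' K) ∨ Sum.inl ⁻¹' K = ∅) ∧
      (IsCompact (Sum.inr ⁻¹' K) ∨ Sum.inr ⁻¹' K = ∅) :=
  ⟨Or.inl (Topology.IsClosedEmbedding.inl.isCompact_preimage hK),
    Or.inl (Topology.IsClosedEmbedding.inr.isCompact_preimage hK)⟩

omit [TopologicalSpace X] [TopologicalSpace Y] in
theorem sing_sum (K : Set (X ⊕ Y)) (hK : Sing (X ⊕ Y) K) :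
    (Sing X (Sum.inl ⁻¹' K) ∨ Sum.inl ⁻¹' K = ∅) ∧ (Sing Y (Sum.inr ⁻¹' K) ∨ Sum.inr ⁻¹' K = ∅) := by
  obtain ⟨x | y, rfl⟩ := hK
  · exact ⟨Or.inl ⟨x, by ext; simp⟩, Or.inr (by ext; simp)⟩
  · exact ⟨Or.inr (by ext; simp), Or.inl ⟨y, by ext; simp⟩⟩

variable (X Y) [Nonempty X] [Nonempty Y]

theorem winsK_sum : WinsK (X ⊕ Y) ↔ WinsK X ∧ WinsK Y := by
  obtain ⟨x0⟩ := ‹Nonempty X›
  obtain ⟨y0⟩ := ‹Nonempty Y›
  refine ⟨fun h => ⟨Win.restrict Topology.IsOpenEmbedding.inl isClosed_range_inl x0 (fun K hK => ?_)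
    (fun K hK => hK.image continuous_inl) h, Win.restrict Topology.IsOpenEmbedding.inr
      isClosed_range_inr y0 (fun K hK => ?_) (fun K hK => hK.image continuous_inr) h⟩,
    fun h => Win.sum nc_union nc_union nc_sum compact_sum h.1 h.2⟩
  · exact ⟨(Topology.IsClosedEmbedding.inl.isCompact_preimage hK.1).insert x0, insert_nonempty _ _⟩
  · exact ⟨(Topology.IsClosedEmbedding.inr.isCompact_preimage hK.1).insert y0, insert_nonempty _ _⟩

theorem preK_sum : PreK (X ⊕ Y) ↔ PreK X ∧ PreK Y := by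
  obtain ⟨x0⟩ := ‹Nonempty X›
  obtain ⟨y0⟩ := ‹Nonempty Y›
  refine ⟨fun h => ⟨Pre.restrict Topology.IsOpenEmbedding.inl isClosed_range_inl x0 (fun K hK => ?_)
    (fun K hK => hK.image continuous_inl) h, Pre.restrict Topology.IsOpenEmbedding.inr
      isClosed_range_inr y0 (fun K hK => ?_) (fun K hK => hK.image continuous_inr) h⟩,
    fun h => Pre.sum nc_union nc_union nc_sum compact_sum h.1 h.2⟩
  · exact ⟨(Topology.IsClosedEmbedding.inl.isCompact_preimage hK.1).insert x0, insert_nonempty _ _⟩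
  · exact ⟨(Topology.IsClosedEmbedding.inr.isCompact_preimage hK.1).insert y0, insert_nonempty _ _⟩

theorem winsF_sum : WinsF (X ⊕ Y) ↔ WinsF X ∧ WinsF Y := by
  obtain ⟨x0⟩ := ‹Nonempty X›
  obtain ⟨y0⟩ := ‹Nonempty Y›
  refine ⟨fun h => ⟨Win.restrict Topology.IsOpenEmbedding.inl isClosed_range_inl x0
    (fun K hK => (hK.preimage Sum.inl_injective.injOn).insert x0) ?_ h,
      Win.restrict Topology.IsOpenEmbedding.inr isClosed_range_inr y0
    (fun K hK => (hK.preimage Sum.inr_injective.injOn).insert y0) ?_ h⟩,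
    fun h => Win.sum (fun _ _ h h' => h.union h') (fun _ _ h h' => h.union h')
      (fun A B hA hB => (hA.image _).union (hB.image _)) sing_sum h.1 h.2⟩
  · rintro _ ⟨x, rfl⟩
    exact ⟨_, image_singleton⟩
  · rintro _ ⟨x, rfl⟩
    exact ⟨_, image_singleton⟩

end Sums

/-! ### The one-point Lindelöfication of a discrete space -/

/-- the one-point Lindelöfication of the discrete space `T` -/
def L (T : Type u) : Type u := Option T

section Lind

variable {T : Type u}

/-- the additional point -/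
def z : L T := none

instance : TopologicalSpace (L T) where
  IsOpen U := z ∈ U → Uᶜ.Countable
  isOpen_univ := by simp
  isOpen_inter U V h h' hz := by
    rw [compl_inter]
    exact (h hz.1).union (h' hz.2)
  isOpen_sUnion S h := fun ⟨U, h1, h2⟩ =>
    (h U h1 h2).mono (compl_subset_compl.2 (subset_sUnion_of_mem h1))

instance : Nonempty (L T) := ⟨z⟩

lemma clopen {S : Set (L T)} (h : S.Countable) (h' : z ∉ S) : IsClopen S :=
  ⟨⟨fun _ => by simpa⟩, fun h => (h' h).elim⟩

instance : T2Space (L T) := ⟨fun a b h => by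
  by_cases h1 : a = z
  · have := clopen (countable_singleton b) (h1 ▸ h)
    exact ⟨_, _, this.compl.2, this.2, h, rfl, disjoint_compl_left⟩
  · have := clopen (countable_singleton a) (Ne.symm h1)
    exact ⟨_, _, this.2, this.compl.2, rfl, h.symm, disjoint_compl_right⟩⟩

lemma fin {K : Set (L T)} (h : IsCompact K) : K.Finite := by
  refine Finite.subset (Finite.insert z (s := K \ {z}) (by_contra fun h1 => ?_)) (by grind)
  obtain ⟨S, h2, h4, h3⟩ := Infinite.exists_subset_countable_infinite h1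
  refine h3 ((h.of_isClosed_subset (clopen h4 fun h => (h2 h).2 rfl).1 (h2.trans sdiff_subset)).finite
    (isDiscrete_iff_forall_mem_exists_isOpen.2 fun x hx => ⟨{x}, (clopen (countable_singleton x)
      fun e => (h2 hx).2 (Eq.symm e)).2, inter_eq_self_of_subset_left (singleton_subset_iff.2 hx)⟩))

lemma mem_hist {α : Type u} (F : ℕ → α) (n : ℕ) :
    (hist F n).length = n ∧ ∀ m < n, F m ∈ hist F n := by
  induction n with
  | zero => exact ⟨rfl, nofun⟩
  | succ n ih => exact ⟨congrArg (· + 1) ih.1, fun m h => (Nat.lt_succ_iff_lt_or_eq.1 h).elim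
      (fun h => List.mem_cons_of_mem _ (ih.2 m h)) fun h => h ▸ List.mem_cons_self⟩

theorem winsK_L (T : Type u) : WinsK (L T) := by
  have h1 (V : Set (L T)) : ∃ e : ℕ → L T, IsOpen V → z ∈ V → Vᶜ ⊆ range e := by
    by_cases h : Vᶜ.Countable
    · obtain ⟨e, h⟩ := (h.insert z).exists_eq_range (insert_nonempty _ _)
      exact ⟨e, fun _ _ => h ▸ subset_insert _ _⟩
    · exact ⟨fun _ => z, fun h1 h2 => (h (h1 h2)).elim⟩
  choose e he using h1
  refine ⟨fun h => insert z (⋃ V ∈ h, e V '' Iio h.length), fun h =>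
    ⟨((h.finite_toSet.biUnion fun _ _ => (finite_Iio _).image _).insert z).isCompact,
      insert_nonempty _ _⟩, fun U hU K h => ?_⟩
  obtain ⟨n, hn⟩ := ((eventually_all_finite (fin h)).2 fun x _ =>
    show ∀ᶠ n in atTop, x ∈ U n by
      by_cases h2 : ∀ n, x ∈ U n
      · exact .of_forall h2
      obtain ⟨m, h2⟩ := not_forall.1 h2
      obtain ⟨j, rfl⟩ := he _ (hU m).1 ((hU m).2 (Or.inl rfl)) h2
      filter_upwards [eventually_gt_atTop m, eventually_gt_atTop j] with n h3 h4
      exact (hU n).2 (Or.inr (mem_biUnion ((mem_hist U n).2 m h3)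
        ⟨j, (mem_hist U n).1.symm ▸ h4, rfl⟩))).exists
  exact ⟨n, fun x h => hn x h⟩

theorem not_preK_L (T : Type u) [Uncountable T] : ¬ PreK (L T) := by
  rintro ⟨A, h1, h2⟩
  have : Uncountable (L T) := inferInstanceAs (Uncountable (Option T))
  obtain ⟨x, hx⟩ : ∃ x, x ∉ ⋃ n, A n := by_contra fun h => not_countable_univ
    ((countable_iUnion fun n => (fin (h1 n).1).countable).mono fun x _ => by_contra fun h' => h ⟨x, h'⟩)
  obtain ⟨_, h⟩ := h2 (fun _ => {x}ᶜ) (fun n => ⟨isOpen_compl_singleton, fun y h e =>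
    hx (mem_iUnion.2 ⟨n, by
      rw [mem_singleton_iff] at e
      rwa [← e]⟩)⟩) _ isCompact_singleton
  exact h rfl rfl

end Lind

theorem preK_compact (C : Type u) [TopologicalSpace C] [CompactSpace C] [Nonempty C] : PreK C :=
  ⟨fun _ => univ, fun _ => ⟨isCompact_univ, univ_nonempty⟩, fun _ hU _ _ =>
    ⟨0, (subset_univ _).trans (hU 0).2⟩⟩

theorem PreK.winsK {X : Type u} [TopologicalSpace X] (h : PreK X) : WinsK X := by
  obtain ⟨A, h1, h2⟩ := h
  refine ⟨fun h => A h.length, fun h => h1 _, fun U hU => h2 U fun n => ?_⟩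
  have : IsOpen (U n) ∧ A (hist U n).length ⊆ U n := hU n
  rwa [(mem_hist U n).1] at this

/-- Two wins the finite-open game on a space with a suitable atomless measure. -/
theorem twoMarkovF_of_measure (X : Type u) {C : Type u} [TopologicalSpace X] [TopologicalSpace C]
    [MeasurableSpace C] (μ : Measure C) [IsProbabilityMeasure μ] [NullSingletonClass μ] [μ.OuterRegular] :
    TwoMarkovF (X ⊕ C) := by
  obtain ⟨ε, h3, h4⟩ := ENNReal.exists_pos_sum_of_countable one_ne_zero ℕ
  have h5 : ∀ (F : Set (X ⊕ C)) (n : ℕ), ∃ u : Set C, F.Finite →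
      Sum.inr ⁻¹' F ⊆ u ∧ IsOpen u ∧ μ u < ε n := by
    intro F n
    by_cases h : F.Finite
    · obtain ⟨u, h5, h6, h7⟩ := (Sum.inr ⁻¹' F : Set C).exists_isOpen_lt_of_lt (μ := μ) (ε n) (by
        simpa [(h.preimage Sum.inr_injective.injOn).measure_zero] using h3 n)
      exact ⟨u, fun _ => ⟨h5, h6, h7⟩⟩
    · exact ⟨∅, fun h' => absurd h' h⟩
  choose u hu using h5
  refine ⟨fun F n => range Sum.inl ∪ Sum.inr '' u F n, fun F hF n =>
    ⟨isOpen_range_inl.union (isOpenMap_inr _ (hu F n hF).2.1), fun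
      | .inl x, _ => Or.inl ⟨x, rfl⟩
      | .inr x, h => Or.inr ⟨x, (hu F n hF).1 h, rfl⟩⟩, fun F hF h9 => ?_⟩
  refine h4.not_ge ((measure_univ (μ := μ)).symm.trans_le
    ((measure_mono fun x _ => ?_).trans ((measure_iUnion_le fun n => u (F n) n).trans
      (ENNReal.tsum_le_tsum fun n => (hu _ n (hF n)).2.2.le))))
  simpa using eq_univ_iff_forall.1 h9 (.inr x)

theorem key3 (T : Type) [Uncountable T] : WinsK (L T ⊕ unitInterval) ∧ ¬ WinsF (L T ⊕ unitInterval) ∧
    ¬ PreK (L T ⊕ unitInterval) ∧ TwoMarkovF (L T ⊕ unitInterval) := by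
  have h1 : TwoMarkovF (L T ⊕ unitInterval) :=
    twoMarkovF_of_measure (L T) (volume : Measure unitInterval)
  exact ⟨(winsK_sum _ _).2 ⟨winsK_L T, (preK_compact _).winsK⟩, h1.not_winsF,
      fun h => not_preK_L T ((preK_sum _ _).1 h).1, h1⟩

/-- (1) On a sum of two nonempty spaces, One has a winning strategy in `G₁(𝒩[K(X)], ¬𝒦_X)` iff he has
one on both summands; the same for predetermined strategies and for the finite-open game.
(2) Hence, for nonempty spaces `Y` and `C`, `C` compact, the sum `Y ⊕ C` has the properties (i), (ii),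
(iii) of the question if and only if One wins `G₁(𝒩[K(Y)], ¬𝒦_Y)`, has no winning predetermined
strategy in this game, and does not win the finite-open game on both of `Y` and `C`.
(3) Let `C` be a compact space with an outer regular probability measure (on some σ-algebra, in the sense of Mathlib;
points are null sets), and `T` an uncountable set. The sum of `C` and the one-point
Lindelöfication of the discrete space `T` has the properties (i) and (iii), and Two has a winning
Markov strategy in the finite-open game; in particular (ii) holds.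
(4) So there are such Hausdorff spaces of every cardinality `κ ≥ 𝔠`. -/
theorem result :
    (∀ (X Y : Type u) [TopologicalSpace X] [TopologicalSpace Y] [Nonempty X] [Nonempty Y],
      (WinsK (X ⊕ Y) ↔ WinsK X ∧ WinsK Y) ∧ (PreK (X ⊕ Y) ↔ PreK X ∧ PreK Y) ∧
      (WinsF (X ⊕ Y) ↔ WinsF X ∧ WinsF Y)) ∧
    (∀ (Y C : Type u) [TopologicalSpace Y] [TopologicalSpace C] [CompactSpace C] [Nonempty Y]
      [Nonempty C], (WinsK (Y ⊕ C) ∧ ¬ WinsF (Y ⊕ C) ∧ ¬ PreK (Y ⊕ C)) ↔
        (WinsK Y ∧ ¬ PreK Y ∧ ¬ (WinsF Y ∧ WinsF C))) ∧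
    (∀ (T C : Type u) [Uncountable T] [TopologicalSpace C] [CompactSpace C] [MeasurableSpace C]
      (μ : Measure C) [IsProbabilityMeasure μ] [NullSingletonClass μ] [μ.OuterRegular],
        WinsK (L T ⊕ C) ∧ ¬ WinsF (L T ⊕ C) ∧ ¬ PreK (L T ⊕ C) ∧ TwoMarkovF (L T ⊕ C)) ∧
    (∀ κ : Cardinal.{0}, Cardinal.continuum ≤ κ → ∃ (X : Type) (_ : TopologicalSpace X),
      Cardinal.mk X = κ ∧ T2Space X ∧ WinsK X ∧ ¬ WinsF X ∧ ¬ PreK X ∧ TwoMarkovF X) := by
  have key : ∀ (Y C : Type u) [TopologicalSpace Y] [TopologicalSpace C] [CompactSpace C] [Nonempty Y]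
      [Nonempty C], (WinsK (Y ⊕ C) ∧ ¬ WinsF (Y ⊕ C) ∧ ¬ PreK (Y ⊕ C)) ↔
        (WinsK Y ∧ ¬ PreK Y ∧ ¬ (WinsF Y ∧ WinsF C)) := by
    intro Y C _ _ _ _ _
    rw [winsK_sum, preK_sum, winsF_sum]
    have h1 := preK_compact C
    have h2 := h1.winsK
    tauto
  have key2 : ∀ (T C : Type u) [Uncountable T] [TopologicalSpace C] [CompactSpace C]
      [MeasurableSpace C] (μ : Measure C) [IsProbabilityMeasure μ] [NullSingletonClass μ]
      [μ.OuterRegular],
        WinsK (L T ⊕ C) ∧ ¬ WinsF (L T ⊕ C) ∧ ¬ PreK (L T ⊕ C) ∧ TwoMarkovF (L T ⊕ C) := by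
    intro T C _ _ _ _ μ _ _ _
    have : Nonempty C := by
      by_contra h
      rw [not_nonempty_iff] at h
      have h1 : μ univ = 1 := measure_univ
      rw [univ_eq_empty_iff.2 h, measure_empty] at h1
      exact zero_ne_one h1
    have h1 : TwoMarkovF (L T ⊕ C) := twoMarkovF_of_measure (L T) μ
    refine ⟨(winsK_sum _ _).2 ⟨winsK_L T, (preK_compact C).winsK⟩, h1.not_winsF,
      fun h => not_preK_L T ((preK_sum _ _).1 h).1, h1⟩
  refine ⟨fun X Y _ _ _ _ => ⟨winsK_sum X Y, preK_sum X Y, winsF_sum X Y⟩, key, key2,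
    fun κ hκ => ?_⟩
  have h0 : Cardinal.aleph0 < κ := Cardinal.aleph0_lt_continuum.trans_le hκ
  have : Uncountable κ.out := by
    rw [← Cardinal.aleph0_lt_mk_iff, Cardinal.mk_out]
    exact h0
  obtain ⟨h1, h2, h3, h4⟩ := key3 κ.out
  refine ⟨L κ.out ⊕ unitInterval, inferInstance, ?_, inferInstance, h1, h2, h3, h4⟩
  have h5 : Cardinal.mk (L κ.out) = κ := by
    show Cardinal.mk (Option κ.out) = κ
    rw [Cardinal.mk_option, Cardinal.mk_out]
    exact Cardinal.add_eq_left h0.le (Cardinal.one_le_aleph0.trans h0.le)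
  have h6 : Cardinal.mk unitInterval = Cardinal.continuum := Cardinal.mk_Icc_real zero_lt_one
  rw [Cardinal.mk_sum, Cardinal.lift_id, Cardinal.lift_id, h5, h6]
  exact Cardinal.add_eq_left h0.le hκ

end Pool.Agent.Results.MP_c6d0b8_gt.SumTheorem
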